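import Pool.Agent.H95.NN.Final

/-!
Root finding in the online nearest neighbour tree is possible with sets of bounded size, in
every dimension.
-/

open MeasureTheory ProbabilityTheory

namespace Pool.Agent.Results.MP_0a1a8a_pr.RootFinding

open Pool.Agent.H95.NN

/-- For every `d ≥ 1` and `ε > 0` there are `K` and a rule `H` of size `K` such that, for all
`n ≥ 1`, if `p_0, …, p_{n-1}` are independent and uniform in the flat torus of volume `n` and `σ` is
any random bijection, then the label of the root belongs to the set chosen by the rule from the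
relabelled nearest neighbour tree with probability at least `1 - ε`. -/
theorem result (d : ℕ) (hd : 1 ≤ d) (ε : ℝ) (hε : 0 < ε) :
    ∃ (K : ℕ) (H : (n : ℕ) → SimpleGraph (Fin n) → Finset (Fin n)),
      (∀ n T, (H n T).card ≤ K) ∧
      ∀ (n : ℕ) (hn : 0 < n) (L : ℝ) [Fact (0 < L)], L ^ d = n →
        ∀ (Ω : Type*) [MeasurableSpace Ω] (P : Measure Ω) [IsProbabilityMeasure P]
          (p : Fin n → Ω → Torus d L) (σ : Ω → Equiv.Perm (Fin n)),
          (∀ i, Measurable (p i)) → (∀ i, P.map (p i) = unif d L) → iIndepFun p P →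
          ENNReal.ofReal (1 - ε) ≤
            P {ω | σ ω ⟨0, hn⟩ ∈ H n ((nnTree fun i => p i ω).map (σ ω))} := by
  obtain ⟨K, δ, hmain⟩ := abstract_success (torus_reg hd) hε
  refine ⟨K, rule δ K, rule_card δ K, ?_⟩
  intro n hn L hL hLn Ω _ P _ p σ hpm hpl hind
  have h1 := transfer L P p hpm hpl hind
    {T | (⟨0, hn⟩ : Fin n) ∈ central δ T ∧ (central δ T).card ≤ K}
  have h2 := hmain n hn
  calc ENNReal.ofReal (1 - ε)
      ≤ Pr (unif d 1) {q : ℕ → Torus d 1 |
          (⟨0, hn⟩ : Fin n) ∈ central δ (nnTree (fun i : Fin n => q i)) ∧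
          (central δ (nnTree (fun i : Fin n => q i))).card ≤ K} := by
        rw [← ofReal_measureReal]
        exact ENNReal.ofReal_le_ofReal h2
    _ = P {ω | nnTree (fun i => p i ω) ∈
          {T | (⟨0, hn⟩ : Fin n) ∈ central δ T ∧ (central δ T).card ≤ K}} := h1.symm
    _ ≤ _ := measure_mono fun ω hω => mem_rule_map _ (σ ω) hω.1 hω.2

end Pool.Agent.Results.MP_0a1a8a_pr.RootFinding
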